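import Pool.Agent.Lib.HS68.Alg
import Pool.Agent.Lib.HS76.Roy

/-! Pointwise inequalities for the Calabi estimate. -/

open Matrix
open scoped ComplexOrder

namespace Pool.Agent.Lib.HS78

open Pool.Agent.Lib.HS68 Pool.Agent.Lib.HS68.DR

variable {ι : Type} [Fintype ι] [DecidableEq ι]

lemma tr_mul_nonneg {P M : Matrix ι ι ℂ} (hP : P.PosSemidef) (hM : M.PosSemidef) :
    0 ≤ (trace (P * M)).re := by
  obtain ⟨W, rfl⟩ := Pool.Agent.Lib.HS76.psd_eq_mul hP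
  rw [Matrix.mul_assoc, trace_mul_comm]
  exact (Complex.nonneg_iff.mp (hM.conjTranspose_mul_mul_same W).trace_nonneg).1

lemma tr_mul_ge {P M : Matrix ι ι ℂ} {c : ℝ} (hP : (P - (c : ℂ) • 1).PosSemidef)
    (hM : M.PosSemidef) : c * (trace M).re ≤ (trace (P * M)).re := by
  have := tr_mul_nonneg hP hM
  rw [Matrix.sub_mul, trace_sub, Matrix.smul_mul, Matrix.one_mul, trace_smul] at this
  simpa using this

/-- Two-sided bound of a matrix. -/
def Bd (K : ℝ) (G : Matrix ι ι ℂ) : Prop :=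
  (G - ((K⁻¹ : ℝ) : ℂ) • 1).PosSemidef ∧ ((K : ℂ) • (1 : Matrix ι ι ℂ) - G).PosSemidef

lemma psd_smul {M : Matrix ι ι ℂ} (hM : M.PosSemidef) {c : ℝ} (hc : 0 ≤ c) :
    ((c : ℂ) • M).PosSemidef := hM.smul (Complex.zero_le_real.mpr hc)

lemma Bd.posDef {K : ℝ} {G : Matrix ι ι ℂ} (h : Bd K G) (hK : 0 < K) : G.PosDef := by
  have h1 : (((K⁻¹ : ℝ) : ℂ) • (1 : Matrix ι ι ℂ)).PosDef :=
    PosDef.one.smul (Complex.zero_lt_real.mpr (inv_pos.mpr hK))
  simpa using h1.posSemidef_add h.1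

lemma Bd.mono {K L : ℝ} {G : Matrix ι ι ℂ} (h : Bd K G) (hK : 0 < K) (hL : K ≤ L) : Bd L G := by
  constructor
  · have := h.1.add (psd_smul (PosSemidef.one (n := ι)) (sub_nonneg.mpr (inv_anti₀ hK hL)))
    rwa [Complex.ofReal_sub, sub_smul, sub_add_sub_cancel] at this
  · have := (psd_smul (PosSemidef.one (n := ι)) (sub_nonneg.mpr hL)).add h.2
    rwa [Complex.ofReal_sub, sub_smul, sub_add_sub_cancel] at this

lemma Bd.inv {K : ℝ} {G : Matrix ι ι ℂ} (h : Bd K G) (hK : 0 < K) : Bd K G⁻¹ := by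
  have hp := h.posDef hK
  have hu : IsUnit G.det := hp.det_pos.ne'.isUnit
  have hi := hp.1.inv.eq
  have hc : ((K⁻¹ : ℝ) : ℂ) * K = 1 := by
    rw [← Complex.ofReal_mul, inv_mul_cancel₀ hK.ne', Complex.ofReal_one]
  have e1 := nonsing_inv_mul _ hu
  have e2 := mul_nonsing_inv _ hu
  constructor
  · have a := (hp.posSemidef.conjTranspose_mul_mul_same
      (((K⁻¹ : ℝ) : ℂ) • (1 : Matrix ι ι ℂ) - G⁻¹)).add
      (psd_smul (psd_smul h.2 (inv_pos.mpr hK).le) (inv_pos.mpr hK).le)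
    have e : (((K⁻¹ : ℝ) : ℂ) • (1 : Matrix ι ι ℂ) - G⁻¹)ᴴ * G * (((K⁻¹ : ℝ) : ℂ) • 1 - G⁻¹) +
        ((K⁻¹ : ℝ) : ℂ) • ((K⁻¹ : ℝ) : ℂ) • ((K : ℂ) • (1 : Matrix ι ι ℂ) - G) =
        G⁻¹ - ((K⁻¹ : ℝ) : ℂ) • 1 := by
      simp only [conjTranspose_sub, conjTranspose_smul, conjTranspose_one, hi, Complex.star_def,
        Complex.conj_ofReal, Matrix.sub_mul, Matrix.mul_sub, Matrix.smul_mul, Matrix.mul_smul,
        Matrix.one_mul, Matrix.mul_one, e1, e2, smul_sub, smul_smul _ (K : ℂ), hc, one_smul]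
      abel
    rwa [e] at a
  · have a := (psd_smul (posSemidef_conjTranspose_mul_self ((K : ℂ) • (1 : Matrix ι ι ℂ) - G⁻¹))
      (inv_pos.mpr hK).le).add (h.1.conjTranspose_mul_mul_same G⁻¹)
    have e : ((K⁻¹ : ℝ) : ℂ) • (((K : ℂ) • (1 : Matrix ι ι ℂ) - G⁻¹)ᴴ * ((K : ℂ) • 1 - G⁻¹)) +
        G⁻¹ᴴ * (G - ((K⁻¹ : ℝ) : ℂ) • 1) * G⁻¹ = (K : ℂ) • 1 - G⁻¹ := by
      simp only [conjTranspose_sub, conjTranspose_smul, conjTranspose_one, hi, Complex.star_def,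
        Complex.conj_ofReal, Matrix.sub_mul, Matrix.mul_sub, Matrix.smul_mul, Matrix.mul_smul,
        Matrix.one_mul, Matrix.mul_one, e1, e2, smul_sub, smul_smul, ← mul_assoc, hc, one_smul, one_mul]
      abel
    rwa [e] at a

/-- Bound of the entries. -/
def Eb (m : ℝ) (M : Matrix ι ι ℂ) : Prop := ∀ i j, ‖M i j‖ ≤ m

lemma eb_of_psd {K : ℝ} {G : Matrix ι ι ℂ} (h0 : G.PosSemidef)
    (h : ((K : ℂ) • (1 : Matrix ι ι ℂ) - G).PosSemidef) : Eb K G := fun i j => by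
  have a := Pool.Agent.Lib.HS76.psd_cs h0 (Pi.single i 1) (Pi.single j 1)
  have e : ∀ i j, star (Pi.single i (1 : ℂ) : ι → ℂ) ⬝ᵥ (G *ᵥ Pi.single j 1) = G i j := by
    intro i j
    simp [← Pi.single_star]
  rw [e, e, e] at a
  have b : ∀ i, 0 ≤ (G i i).re ∧ (G i i).re ≤ K := fun i => by
    have h1 := (Complex.nonneg_iff.mp (h0.diag_nonneg (i := i))).1
    have h2 := (Complex.nonneg_iff.mp (h.diag_nonneg (i := i))).1
    exact ⟨h1, by simpa using h2⟩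
  refine abs_le_of_sq_le_sq' ?_ ((b i).1.trans (b i).2) |>.2
  nlinarith [b i, b j, mul_le_mul (b i).2 (b j).2 (b j).1 ((b i).1.trans (b i).2)]

lemma Bd.eb {K : ℝ} {G : Matrix ι ι ℂ} (h : Bd K G) (hK : 0 < K) : Eb K G :=
  eb_of_psd (h.posDef hK).posSemidef h.2

lemma bd_one {K : ℝ} (hK : 1 ≤ K) : Bd K (1 : Matrix ι ι ℂ) :=
  Bd.mono (K := 1) ⟨by simpa using PosSemidef.zero, by simpa using PosSemidef.zero⟩ one_pos hK

section eb

variable {L a b : ℝ} {M N : Matrix ι ι ℂ}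

omit [DecidableEq ι] in
lemma norm_sum_le' (hL : (Fintype.card ι : ℝ) ≤ L) {f : ι → ℂ} (ha : 0 ≤ a) (h : ∀ i, ‖f i‖ ≤ a) :
    ‖∑ i, f i‖ ≤ L * a := by
  refine (norm_sum_le _ _).trans ((Finset.sum_le_sum fun i _ => h i).trans ?_)
  simpa using mul_le_mul_of_nonneg_right hL ha

omit [DecidableEq ι] [Fintype ι] in
lemma Eb.mono (h : Eb a M) (hab : a ≤ b) : Eb b M := fun i j => (h i j).trans hab

omit [DecidableEq ι] [Fintype ι] in
lemma Eb.add (h : Eb a M) (h' : Eb b N) : Eb (a + b) (M + N) := fun i j =>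
  norm_add_le_of_le (h i j) (h' i j)

omit [DecidableEq ι] [Fintype ι] in
lemma Eb.sub (h : Eb a M) (h' : Eb b N) : Eb (a + b) (M - N) := fun i j =>
  norm_sub_le_of_le (h i j) (h' i j)

omit [DecidableEq ι] [Fintype ι] in
lemma Eb.neg (h : Eb a M) : Eb a (-M) := fun i j => by simpa using h i j

omit [DecidableEq ι] [Fintype ι] in
lemma Eb.ct (h : Eb a M) : Eb a Mᴴ := fun i j => by simpa using h j i

omit [DecidableEq ι] in
lemma Eb.mul (hL : (Fintype.card ι : ℝ) ≤ L) (ha : 0 ≤ a) (hb : 0 ≤ b) (h : Eb a M)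
    (h' : Eb b N) : Eb (L * (a * b)) (M * N) := fun i j =>
  norm_sum_le' hL (mul_nonneg ha hb) fun k => norm_mul_le_of_le (h i k) (h' k j)

omit [DecidableEq ι] in
lemma Eb.trace (hL : (Fintype.card ι : ℝ) ≤ L) (ha : 0 ≤ a) (h : Eb a M) :
    ‖trace M‖ ≤ L * a := norm_sum_le' hL ha fun i => h i i

lemma ip_le {g h : Matrix ι ι ℂ} {T U : ι → Matrix ι ι ℂ} (hL : (Fintype.card ι : ℝ) ≤ L)
    (ha : 0 ≤ a) (hb : 0 ≤ b) (hg : Eb L g⁻¹) (hh : Eb L h) (hT : ∀ k, Eb a (T k))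
    (hU : ∀ k, Eb b (U k)) : ‖ip g h T U‖ ≤ L ^ 9 * (a * b) := by
  have h0 : 0 ≤ L := (Nat.cast_nonneg _).trans hL
  refine (norm_sum_le' hL (by positivity) fun k => norm_sum_le' hL (by positivity) fun l =>
    norm_mul_le_of_le (hg k l) (Eb.trace hL (by positivity) (Eb.mul hL (by positivity) ha
      (Eb.mul hL (by positivity) h0 (Eb.mul hL h0 hb hg (hU l).ct) hh) (hT k)))).trans_eq ?_
  ring

end eb

/-- A Gram matrix is positive semidefinite. -/
lemma gram_psd {V : Type} [AddCommGroup V] [Module ℂ V] (B : V →ₗ[ℂ] V →ₗ⋆[ℂ] ℂ)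
    (hs : ∀ x y, star (B x y) = B y x) (h0 : ∀ x, 0 ≤ (B x x).re) (x : ι → V) :
    (of fun l k => B (x k) (x l)).PosSemidef := by
  refine PosSemidef.of_dotProduct_mulVec_nonneg ?_ fun v => ?_
  · ext i j
    simp only [conjTranspose_apply, of_apply, hs]
  · have e : star v ⬝ᵥ ((of fun l k => B (x k) (x l)) *ᵥ v) =
        B (∑ k, v k • x k) (∑ k, v k • x k) := by
      simp only [dotProduct, mulVec, of_apply, map_sum, LinearMap.sum_apply, map_smul,
        LinearMap.smul_apply, LinearMap.map_smulₛₗ, smul_eq_mul, Pi.star_apply, Finset.mul_sum,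
        Complex.star_def]
      refine Finset.sum_congr rfl fun _ _ => Finset.sum_congr rfl fun _ _ => by ring
    rw [e]
    refine Complex.nonneg_iff.mpr ⟨h0 _, ?_⟩
    have := congrArg Complex.im (hs (∑ k, v k • x k) (∑ k, v k • x k))
    simp only [Complex.star_def, Complex.conj_im] at this
    linarith

lemma sum_gram (P : Matrix ι ι ℂ) (f : ι → ι → ℂ) :
    ∑ k, ∑ l, P k l * f k l = trace (P * of fun l k => f k l) := by
  simp [trace, Matrix.mul_apply]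

/-- The inner product of matrices. -/
noncomputable def trB (P h : Matrix ι ι ℂ) : Matrix ι ι ℂ →ₗ[ℂ] Matrix ι ι ℂ →ₗ⋆[ℂ] ℂ :=
  LinearMap.mk₂'ₛₗ (RingHom.id ℂ) (starRingEnd ℂ) (fun T U => trace (P * Uᴴ * h * T))
    (fun _ _ _ => by simp [Matrix.mul_add])
    (fun _ _ _ => by simp)
    (fun _ _ _ => by simp [Matrix.mul_add, Matrix.add_mul])
    (fun _ _ _ => by simp)

lemma trB_gram {P h : Matrix ι ι ℂ} (hP : P.PosSemidef) (hh : h.PosSemidef)
    (T : ι → Matrix ι ι ℂ) : (of fun l k => trace (P * (T l)ᴴ * h * T k)).PosSemidef := by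
  refine gram_psd (trB P h) (fun x y => ?_) (fun x => ?_) T
  · change star (trace (P * yᴴ * h * x)) = trace (P * xᴴ * h * y)
    rw [← trace_conjTranspose]
    simp only [conjTranspose_mul, conjTranspose_conjTranspose, hP.1.eq, hh.1.eq]
    rw [← Matrix.mul_assoc, ← Matrix.mul_assoc, trace_mul_comm]
    simp only [Matrix.mul_assoc]
  · change 0 ≤ (trace (P * xᴴ * h * x)).re
    have := tr_mul_nonneg hP (hh.conjTranspose_mul_mul_same x)
    simpa only [Matrix.mul_assoc] using this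

lemma ip_nonneg {g h : Matrix ι ι ℂ} (hg : g.PosSemidef) (hh : h.PosSemidef)
    (T : ι → Matrix ι ι ℂ) : 0 ≤ (ip g h T T).re := by
  rw [ip, sum_gram]
  exact tr_mul_nonneg hg.inv (trB_gram hg.inv hh T)

lemma sq_le_ip {L : ℝ} {g h : Matrix ι ι ℂ} (hL : 0 < L) (hg : Bd L g) (hh : Bd L h)
    (T : ι → Matrix ι ι ℂ) (k a b : ι) : ‖T k a b‖ ^ 2 ≤ L ^ 3 * (ip g h T T).re := by
  have hg' := hg.inv hL
  have p1 := (hg'.posDef hL).posSemidef
  have p2 := (hh.posDef hL).posSemidef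
  have hi := inv_pos.mpr hL
  have a1 := tr_mul_ge hg'.1 (trB_gram p1 p2 T)
  rw [← sum_gram, ← ip] at a1
  have a2 : (trace (g⁻¹ * (T k)ᴴ * h * T k)).re ≤
      (trace (of fun l k => trace (g⁻¹ * (T l)ᴴ * h * T k))).re := by
    conv_rhs => rw [trace, Complex.re_sum]
    exact Finset.single_le_sum (f := fun i => (diag
      (of fun l k => trace (g⁻¹ * (T l)ᴴ * h * T k)) i).re) (fun i _ =>
        (Complex.nonneg_iff.mp ((trB_gram p1 p2 T).diag_nonneg (i := i))).1) (Finset.mem_univ k)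
  have a3 := tr_mul_ge hg'.1 (p2.conjTranspose_mul_mul_same (T k))
  have a4 := tr_mul_ge hh.1 (posSemidef_self_mul_conjTranspose (T k))
  rw [← Matrix.mul_assoc, trace_mul_comm (h * T k), ← Matrix.mul_assoc] at a4
  simp only [← Matrix.mul_assoc] at a3
  have a5 : ‖T k a b‖ ^ 2 ≤ (trace (T k * (T k)ᴴ)).re := by
    have e : (trace (T k * (T k)ᴴ)).re = ∑ i, ∑ j, ‖T k i j‖ ^ 2 := by
      simp [trace, Matrix.mul_apply, Complex.mul_conj, Complex.normSq_eq_norm_sq,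
        ← Complex.ofReal_pow]
    rw [e]
    exact (Finset.single_le_sum (f := fun j => ‖T k a j‖ ^ 2) (fun _ _ => by positivity)
      (Finset.mem_univ b)).trans (Finset.single_le_sum (f := fun i => ∑ j, ‖T k i j‖ ^ 2)
      (fun _ _ => by positivity) (Finset.mem_univ a))
  rw [inv_mul_le_iff₀ hL] at a1 a3 a4
  calc _ ≤ L * (L * (L * (ip g h T T).re)) :=
        a5.trans (a4.trans (mul_le_mul_of_nonneg_left (a3.trans
          (mul_le_mul_of_nonneg_left (a2.trans a1) hL.le)) hL.le))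
    _ = _ := by ring

/-- The inner product of matrix valued forms. -/
noncomputable def ipB (g h : Matrix ι ι ℂ) :
    (ι → Matrix ι ι ℂ) →ₗ[ℂ] (ι → Matrix ι ι ℂ) →ₗ⋆[ℂ] ℂ :=
  LinearMap.mk₂'ₛₗ (RingHom.id ℂ) (starRingEnd ℂ) (ip g h)
    (fun _ _ _ => ip_add_left _ _ _)
    (fun _ _ _ => ip_smul_left _ _ _)
    (fun _ _ _ => by simp [ip, Matrix.mul_add, Matrix.add_mul, mul_add, Finset.sum_add_distrib])
    (fun _ _ _ => by simp [ip, Finset.mul_sum, mul_left_comm])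

lemma good_nonneg {g : Matrix ι ι ℂ} (hg : g.PosSemidef) (X : ι → ι → Matrix ι ι ℂ) :
    0 ≤ (∑ j, ∑ i, g⁻¹ j i * ip g g (X j) (X i)).re ∧
      0 ≤ (∑ j, ∑ i, g⁻¹ j i * ip g g (X i) (X j)).re := by
  have := gram_psd (ipB g g) (fun x y => star_ip hg.1 hg.1 x y) (ip_nonneg hg hg) X
  rw [sum_gram, sum_gram]
  exact ⟨tr_mul_nonneg hg.inv this, tr_mul_nonneg hg.inv this.transpose⟩

end Pool.Agent.Lib.HS78
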